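import Mathlib
import Pool.Agent.R509NU.Fail

/-!
`MP_3cb207_an`, Q1, negative answer: a complex Banach space, linearly homeomorphic to a separable
Hilbert space, which has the Bishop-Phelps-Bollobas property for the numerical radius but fails
property (nu).
-/

namespace Pool.Agent.Results.MP_3cb207_an.Counterexample

open Pool.Agent.R509NU

theorem result : ∃ (X : Type) (_ : NormedAddCommGroup X) (_ : NormedSpace ℂ X)
    (_ : CompleteSpace X),
    BPBpNu ℂ X ∧ ¬ PropertyNu ℂ X ∧
    (∀ T : X →L[ℂ] X, ‖T‖ ≤ 3 * nu T) ∧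
    Nonempty (X ≃L[ℂ] lp (fun _ : ℕ => EuclideanSpace ℂ (Fin 2)) 2) :=
  ⟨Pool.Agent.R509NU.X, inferInstance, inferInstance, inferInstance, bpb, fail, ni, ⟨toHL⟩⟩

end Pool.Agent.Results.MP_3cb207_an.Counterexample
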